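import Pool.Agent.helper48.EXI.Spec2

/-!
# Block EXI of project NPT (MP_8f32d0_ag), row KH2: `A` is a ring, and the residue theorem
-/

set_option autoImplicit false

namespace EXI

open scoped Classical
open AN
open Pool.Agent.helper53.AU

noncomputable section

variable {L : Type} [Field L]

/-- `x^n` -/
def KH2_x (L : Type) [Field L] (n : ℕ) : LS L := mono (-(2 * (n : ℤ))) 1

/-- the polynomials in `x` -/
def KH2_X (L : Type) [Field L] : Submodule L (LS L) := Submodule.span L (Set.range (KH2_x L))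

theorem KH2_xmul (n m : ℕ) : KH2_x L n * KH2_x L m = KH2_x L (n + m) := by
  unfold KH2_x
  rw [mono_mul_mono, one_mul]
  congr 1
  push_cast
  ring

theorem KH2_mem (n : ℕ) : KH2_x L n ∈ KH2_X L := Submodule.subset_span ⟨n, rfl⟩

theorem KH2_Xmul {f g : LS L} (hf : f ∈ KH2_X L) (hg : g ∈ KH2_X L) : f * g ∈ KH2_X L := by
  unfold KH2_X at hf
  induction hf using Submodule.span_induction with
  | mem z hz =>
    obtain ⟨n, rfl⟩ := hz
    unfold KH2_X at hg
    induction hg using Submodule.span_induction with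
    | mem w hw =>
      obtain ⟨m, rfl⟩ := hw
      rw [KH2_xmul]
      exact KH2_mem _
    | zero =>
      rw [mul_zero]
      exact (KH2_X L).zero_mem
    | add a b _ _ ha hb =>
      rw [mul_add]
      exact (KH2_X L).add_mem ha hb
    | smul c a _ ha =>
      rw [mul_smul_comm]
      exact (KH2_X L).smul_mem c ha
  | zero =>
    rw [zero_mul]
    exact (KH2_X L).zero_mem
  | add a b _ _ ha hb =>
    rw [add_mul]
    exact (KH2_X L).add_mem ha hb
  | smul c a _ ha =>
    rw [smul_mul_assoc]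
    exact (KH2_X L).smul_mem c ha

theorem KH2_one : (1 : LS L) ∈ KH2_X L := by
  have h : (1 : LS L) = KH2_x L 0 := by
    apply LS.ext
    intro n
    unfold KH2_x
    rw [cf_one, cf_mono]
    simp
  rw [h]
  exact KH2_mem 0

theorem KH2_E2m (n : ℤ) (c : L) : E2 (mono n c) = mono (2 * n) c := by
  apply LS.ext
  intro k
  by_cases hk : Even k
  · obtain ⟨m, rfl⟩ := hk
    rw [← two_mul, cf_E2_even, cf_mono, cf_mono]
    by_cases h : m = n
    · rw [if_pos h, if_pos (by rw [h])]
    · rw [if_neg h, if_neg (by omega)]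
  · rw [cf_E2_odd _ _ hk, cf_mono, if_neg]
    intro h
    exact hk (by rw [h]; exact even_two_mul n)

theorem KH2_E2f {N : ℕ} (t : Fin N → L) : E2 (fx t) ∈ KH2_X L := by
  unfold fx
  rw [map_prod]
  refine Finset.prod_induction _ (fun z => z ∈ KH2_X L) (fun a b ha hb => KH2_Xmul ha hb) KH2_one ?_
  intro i _
  rw [map_sub, C_eq_mono, KH2_E2m, KH2_E2m]
  refine (KH2_X L).sub_mem ?_ ?_
  · have h := KH2_mem (L := L) 1
    unfold KH2_x at h
    have e : (-(2 * ((1 : ℕ) : ℤ))) = 2 * (-1) := by norm_num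
    rw [e] at h
    exact h
  · have h := (KH2_X L).smul_mem (t i) (KH2_one (L := L))
    have e : (t i) • (1 : LS L) = mono (2 * 0) (t i) := by
      rw [← C_mul, mul_one, C_eq_mono]
      rfl
    rw [e] at h
    exact h

theorem KH2_VV (y f : LS L) : f ∈ VV y ↔ ∃ a ∈ KH2_X L, ∃ b ∈ KH2_X L, f = a + b * y := by
  constructor
  · intro h
    unfold VV at h
    induction h using Submodule.span_induction with
    | mem z hz =>
      obtain ⟨n, rfl | rfl⟩ := hz
      · exact ⟨_, KH2_mem n, 0, (KH2_X L).zero_mem, by rw [zero_mul, add_zero]; rfl⟩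
      · exact ⟨0, (KH2_X L).zero_mem, _, KH2_mem n, by rw [zero_add]; rfl⟩
    | zero => exact ⟨0, (KH2_X L).zero_mem, 0, (KH2_X L).zero_mem, by rw [zero_mul, add_zero]⟩
    | add u v _ _ hu hv =>
      obtain ⟨a, ha, b, hb, rfl⟩ := hu
      obtain ⟨a', ha', b', hb', rfl⟩ := hv
      exact ⟨a + a', (KH2_X L).add_mem ha ha', b + b', (KH2_X L).add_mem hb hb', by ring⟩
    | smul c u _ hu =>
      obtain ⟨a, ha, b, hb, rfl⟩ := hu
      exact ⟨c • a, (KH2_X L).smul_mem c ha, c • b, (KH2_X L).smul_mem c hb, by rw [smul_add, smul_mul_assoc]⟩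
  · rintro ⟨a, ha, b, hb, rfl⟩
    refine (VV y).add_mem ?_ ?_
    · unfold KH2_X at ha
      induction ha using Submodule.span_induction with
      | mem z hz =>
        obtain ⟨n, rfl⟩ := hz
        exact Submodule.subset_span ⟨n, Or.inl rfl⟩
      | zero => exact (VV y).zero_mem
      | add u v _ _ hu hv => exact (VV y).add_mem hu hv
      | smul c u _ hu => exact (VV y).smul_mem c hu
    · unfold KH2_X at hb
      induction hb using Submodule.span_induction with
      | mem z hz =>
        obtain ⟨n, rfl⟩ := hz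
        exact Submodule.subset_span ⟨n, Or.inr rfl⟩
      | zero =>
        rw [zero_mul]
        exact (VV y).zero_mem
      | add u v _ _ hu hv =>
        rw [add_mul]
        exact (VV y).add_mem hu hv
      | smul c u _ hu =>
        rw [smul_mul_assoc]
        exact (VV y).smul_mem c hu

/-! parity -/

/-- even series -/
def KH2_Ev (f : LS L) : Prop := ∀ n : ℤ, ¬ Even n → cf f n = 0
/-- odd series -/
def KH2_Od (f : LS L) : Prop := ∀ n : ℤ, Even n → cf f n = 0

theorem KH2_res {f : LS L} (h : KH2_Ev f) : res f = 0 := h _ (by decide)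

theorem KH2_par (P Q S : ℤ → Prop) (hPQ : ∀ i n : ℤ, S n → P i ∨ Q (n - i)) {f g : LS L}
    (hf : ∀ n, P n → cf f n = 0) (hg : ∀ n, Q n → cf g n = 0) : ∀ n, S n → cf (f * g) n = 0 := by
  intro n hn
  obtain ⟨a, ha⟩ := exists_lb f
  obtain ⟨b, hb⟩ := exists_lb g
  rw [cf_mul_finset f g n (a := a) (b := b) ha hb]
  refine Finset.sum_eq_zero fun i _ => ?_
  rcases hPQ i n hn with h | h
  · rw [hf i h, zero_mul]
  · rw [hg _ h, mul_zero]

theorem KH2_ee {f g : LS L} (hf : KH2_Ev f) (hg : KH2_Ev g) : KH2_Ev (f * g) :=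
  KH2_par _ _ _ (fun i n hn => by
    by_cases h : Even i
    · right
      intro h2
      exact hn (by have := h.add h2; rwa [add_sub_cancel] at this)
    · exact Or.inl h) hf hg

theorem KH2_eo {f g : LS L} (hf : KH2_Ev f) (hg : KH2_Od g) : KH2_Od (f * g) :=
  KH2_par _ _ _ (fun i n hn => by
    by_cases h : Even i
    · right
      exact hn.sub h
    · exact Or.inl h) hf hg

theorem KH2_oo {f g : LS L} (hf : KH2_Od f) (hg : KH2_Od g) : KH2_Ev (f * g) :=
  KH2_par _ _ _ (fun i n hn => by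
    by_cases h : Even i
    · exact Or.inl h
    · right
      rw [Int.not_even_iff_odd] at h hn
      exact hn.sub_odd h) hf hg

theorem KH2_de {f : LS L} (hf : KH2_Ev f) : KH2_Od (dd f) := by
  intro n hn
  rw [cf_dd, hf (n + 1) (by rw [Int.not_even_iff_odd]; exact hn.add_one), mul_zero]

theorem KH2_do {f : LS L} (hf : KH2_Od f) : KH2_Ev (dd f) := by
  intro n hn
  rw [Int.not_even_iff_odd] at hn
  rw [cf_dd, hf (n + 1) hn.add_one, mul_zero]

theorem KH2_Xev {f : LS L} (hf : f ∈ KH2_X L) : KH2_Ev f := by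
  intro k hk
  unfold KH2_X at hf
  induction hf using Submodule.span_induction with
  | mem z hz =>
    obtain ⟨n, rfl⟩ := hz
    unfold KH2_x
    rw [cf_mono, if_neg]
    intro h
    exact hk ⟨-(n : ℤ), by rw [h]; ring⟩
  | zero => rfl
  | add u v _ _ hu hv => rw [cf_add, hu, hv, add_zero]
  | smul c u _ hu => rw [cf_smul, hu, mul_zero]

theorem KH2_Xres {f g : LS L} (hf : f ∈ KH2_X L) (hg : g ∈ KH2_X L) : res (f * dd g) = 0 := by
  unfold KH2_X at hf
  induction hf using Submodule.span_induction with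
  | mem z hz =>
    obtain ⟨n, rfl⟩ := hz
    unfold KH2_X at hg
    induction hg using Submodule.span_induction with
    | mem w hw =>
      obtain ⟨m, rfl⟩ := hw
      unfold KH2_x
      rw [dd_mono, mono_mul_mono]
      show cf _ (-1) = 0
      rw [cf_mono]
      by_cases h : (-1 : ℤ) = -(2 * (n : ℤ)) + (-(2 * (m : ℤ)) - 1)
      · have hm : m = 0 := by omega
        subst hm
        simp
      · rw [if_neg h]
    | zero => rw [map_zero, mul_zero]; rfl
    | add a b _ _ ha hb => rw [map_add, mul_add, res_add, ha, hb, add_zero]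
    | smul c a _ ha => rw [map_smul, mul_smul_comm, res_smul, ha, mul_zero]
  | zero => rw [zero_mul]; rfl
  | add a b _ _ ha hb => rw [add_mul, res_add, ha, hb, add_zero]
  | smul c a _ ha => rw [smul_mul_assoc, res_smul, ha, mul_zero]

/-- **KH2** -/
theorem KH2 : KH2_stmt := by
  intro L _ h2 g t y hy
  have hc : y ^ 2 ∈ KH2_X L := by
    rw [hy.sq]
    exact KH2_E2f t
  have hyo : KH2_Od y := hy.odd
  refine ⟨?_, ?_⟩
  · intro f hf h hh
    rw [KH2_VV] at hf hh ⊢
    obtain ⟨a, ha, b, hb, rfl⟩ := hf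
    obtain ⟨a', ha', b', hb', rfl⟩ := hh
    refine ⟨a * a' + b * b' * y ^ 2, (KH2_X L).add_mem (KH2_Xmul ha ha') (KH2_Xmul (KH2_Xmul hb hb') hc),
      a * b' + a' * b, (KH2_X L).add_mem (KH2_Xmul ha hb') (KH2_Xmul ha' hb), by ring⟩
  · intro f hf h hh
    rw [KH2_VV] at hf hh
    obtain ⟨a, ha, b, hb, rfl⟩ := hf
    obtain ⟨a', ha', b', hb', rfl⟩ := hh
    have ea := KH2_Xev ha
    have eb := KH2_Xev hb
    have ea' := KH2_Xev ha'
    have eb' := KH2_Xev hb'
    have e : (a + b * y) * dd (a' + b' * y) = a * dd a' + (a * (dd b' * y) + (a * (b' * dd y) + ((b * y) * dd a' + (b * dd b' * y ^ 2 + b * b' * (y * dd y))))) := by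
      rw [map_add, dd_mul]
      ring
    have r1 := KH2_Xres ha ha'
    have r2 : res (a * (dd b' * y)) = 0 := KH2_res (KH2_ee ea (KH2_oo (KH2_de eb') hyo))
    have r3 : res (a * (b' * dd y)) = 0 := KH2_res (KH2_ee ea (KH2_ee eb' (KH2_do hyo)))
    have r4 : res ((b * y) * dd a') = 0 := KH2_res (KH2_oo (KH2_eo eb hyo) (KH2_de ea'))
    have r5 : res (b * dd b' * y ^ 2 + b * b' * (y * dd y)) = 0 := by
      obtain ⟨z, hz⟩ : ∃ z, z = b * dd b' * y ^ 2 + b * b' * (y * dd y) := ⟨_, rfl⟩
      rw [← hz]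
      have e5 : z + z = (b * y ^ 2) * dd b' + ((b * y ^ 2) * dd b' + (b * b') * dd (y ^ 2)) := by
        rw [hz, pow_two, dd_mul]
        ring
      have e6 := congrArg res e5
      rw [res_add, res_add, res_add, KH2_Xres (KH2_Xmul hb hc) hb', KH2_Xres (KH2_Xmul hb hb') hc, add_zero, add_zero, ← two_mul] at e6
      exact (mul_eq_zero.1 e6).resolve_left h2
    rw [e, res_add, res_add, res_add, res_add, r1, r2, r3, r4, r5]
    simp

end

end EXI
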